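import Pool.Agent.Helper74_SE.Base
import Pool.Agent.Helper74_SE.Count
import Pool.Agent.Helper74_SE.Cyc

/-!
Bridgeless cubic graphs of arbitrarily large girth and cyclic edge connectivity whose embeddings with
circuit faces need arbitrarily more genus than the graph.
-/

set_option autoImplicit false

namespace Pool.Agent.Results.MP_f8ee93_co.LargeGirth

open Pool.Agent.Helper74_SE

/-- For all `k` and `M` there is a finite connected bridgeless cubic graph of girth at least `k` and
cyclic edge connectivity at least `k`, with an embedding of genus `g` such that every embedding with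
circuit faces has genus at least `g + M`. -/
theorem result (k M : ℕ) :
    ∃ (W : Type) (_ : Finite W) (G : SimpleGraph W),
      G.Connected ∧
      (∀ w : W, (G.neighborSet w).ncard = 3) ∧
      (∀ e ∈ G.edgeSet, ¬ G.IsBridge e) ∧
      (k : ℕ∞) ≤ G.egirth ∧
      CyclicallyConnected G k ∧
      ∃ R₀ : Rotation G, ∀ R : Rotation G, R.CircuitFaces → R₀.genus + M ≤ R.genus := by
  classical
  obtain ⟨V, hV, X, u, v, h, hg, ht, hr, hl, hD⟩ :=
    tower_conn k (9 * (6 * 2 ^ k) + 18 + 6 * ((6 * 2 ^ k) * M))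
  have := Fintype.ofFinite V
  have h1 : k < 2 ^ k := Nat.lt_two_pow_self
  have h3 : k ≤ 6 * 2 ^ k := by omega
  let F : Far V :=
    { X := X, k := 6 * 2 ^ k, hk := by omega, good := hg, pt := fun b => if b then v else u, h := h,
      lip := hl, D := 9 * (6 * 2 ^ k) + 18 + 6 * ((6 * 2 ^ k) * M), hD := by omega,
      far := by simpa using hD, conn := by simpa using hr }
  have hF : 3 * F.k ≤ F.D + 3 := by
    show 3 * (6 * 2 ^ k) ≤ 9 * (6 * 2 ^ k) + 18 + _ + 3; omega
  refine ⟨V ⊕ Bool, inferInstance, F.G, F.connected, F.ncard_neighborSet, F.not_bridge, ?_, ?_,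
    F.R₀, fun R hR => F.genus_gap R hR ?_⟩
  · refine le_trans ?_ (F.le_egirth hF)
    exact_mod_cast h3
  · have h4 := F.cyclically ht (by show 6 ≤ 6 * 2 ^ k; omega) hF
    exact fun S s1 s2 => h3.trans (h4 S s1 s2)
  · show 9 * (6 * 2 ^ k) + 18 + 6 * ((6 * 2 ^ k) * M) ≤
      2 * (9 * (6 * 2 ^ k) + 18 + 6 * ((6 * 2 ^ k) * M))
    omega

end Pool.Agent.Results.MP_f8ee93_co.LargeGirth
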