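import Pool.Agent.Helper53_SG.Good

/-!
The largest genus of an embedding with circuit faces of a cubic graph with `n` vertices, and graphs
of genus at most one on which any given smaller genus, and the largest one, is forced.
-/

set_option autoImplicit false

namespace Pool.Agent.Results.MP_f8ee93_co.SharpGap

open Pool.Agent.Helper74_SE

/-- Let `n` be even.  Every embedding with circuit faces of a simple cubic graph with `n` vertices
has genus at most `(n - 2) / 4`.  For every `h` with `1 ≤ h ≤ (n - 2) / 4` there is a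
three-edge-connected simple cubic graph with `n` vertices which has an embedding of genus at most
`1` and an embedding with circuit faces, and all of whose embeddings with circuit faces have genus
exactly `h`. -/
theorem result (n : ℕ) (hn : Even n) :
    (∀ (W : Type) [Finite W] [Nonempty W] (G : SimpleGraph W), Nat.card W = n →
      (∀ w : W, (G.neighborSet w).ncard = 3) →
      ∀ R : Rotation G, R.CircuitFaces → R.genus ≤ ((n : ℚ) - 2) / 4) ∧
    ∀ h : ℕ, 1 ≤ h → 4 * h + 2 ≤ n →
      ∃ (W : Type) (_ : Finite W) (G : SimpleGraph W),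
        Nat.card W = n ∧
        G.Connected ∧
        (∀ w : W, (G.neighborSet w).ncard = 3) ∧
        (∀ S : Set W, S.Nonempty → Sᶜ.Nonempty →
          3 ≤ {e ∈ G.edgeSet | ∃ x ∈ S, ∃ y ∉ S, e = s(x, y)}.ncard) ∧
        (∃ R : Rotation G, R.genus ≤ 1) ∧
        (∃ R : Rotation G, R.CircuitFaces) ∧
        ∀ R : Rotation G, R.CircuitFaces → R.genus = h := by
  refine ⟨?_, ?_⟩
  · intro W _ _ G hW hG R hR
    obtain ⟨w⟩ := (inferInstance : Nonempty W)
    have h1 := Helper53_SG.genus_le hG w hR
    rw [hW] at h1
    exact h1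
  · intro h h1 h2
    obtain ⟨m, hm⟩ : ∃ m, n = 4 * h + 2 + 2 * m := by
      obtain ⟨k, hk⟩ := hn
      exact ⟨k - (2 * h + 1), by omega⟩
    obtain ⟨V, _, _, X, v, S⟩ := Helper53_SG.good_exists h m h1
    have hc := Helper53_SG.gr_cubic X S.simple
    have hcard : Nat.card V = n := by rw [Nat.card_eq_fintype_card, S.card, hm]
    refine ⟨V, inferInstance, Helper53_SG.gr X, hcard, Helper53_SG.gr_conn X S.hc v, hc, ?_, ?_,
      ?_, ?_⟩
    · intro T t1 t2
      exact Helper53_SG.cut_edges X S.hc S.simple T t1 t2
    · obtain ⟨s, hs⟩ := S.tor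
      refine ⟨Helper53_SG.rot X S.simple s, ?_⟩
      rw [Helper53_SG.genus_eq hc, Helper53_SG.faces_eq (Helper53_SG.rot_next X S.simple s), hcard]
      rw [← hm] at hs
      have h3 : (n : ℚ) ≤ 2 * (Helper53_SG.nf X s : ℚ) := by exact_mod_cast hs
      linarith
    · obtain ⟨s, hs⟩ := S.ex
      exact ⟨Helper53_SG.rot X S.simple s,
        (Helper53_SG.circ_iff (Helper53_SG.rot_next X S.simple s)).2 hs⟩
    · intro R hR
      obtain ⟨s, hs⟩ := Helper53_SG.exists_sign X S.simple R
      have h3 := S.cls s ((Helper53_SG.circ_iff hs).1 hR)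
      rw [Helper53_SG.genus_eq hc, Helper53_SG.faces_eq hs, hcard, h3, hm]
      push_cast
      ring

end Pool.Agent.Results.MP_f8ee93_co.SharpGap
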